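import Pool.Agent.helper64.NQ.Spec

/-!
Row `nq:PNC` (MP_baa4d7_al): the class of the finite groups with a normal `p`-subgroup and nilpotent
quotient is closed under subgroups and homomorphic images.
-/

set_option autoImplicit false

namespace Pool.Agent.NQ

open Pool.Agent.helper58.DC Pool.Agent.DI Pool.Agent.DR

theorem PNC_inj {A B : Type} [Group A] [Group B] (f : A →* B) (hf : Function.Injective f)
    (h : Group.IsNilpotent B) : Group.IsNilpotent A := by
  haveI := h
  exact Group.nilpotent_of_mulEquiv (MonoidHom.ofInjective hf).symm

/-- **PNC** -/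
theorem PNC : PNC_stmt := by
  intro p
  refine ⟨?_, ?_⟩
  · rintro E _ H ⟨hfin, P, hP, hPp, hnil⟩
    have := hfin
    have : (P.subgroupOf H).Normal := inferInstance
    refine ⟨inferInstance, P.subgroupOf H, inferInstance, hPp.comap_subtype, ?_⟩
    refine PNC_inj (QuotientGroup.map (P.subgroupOf H) P H.subtype le_rfl) ?_ hnil
    rw [injective_iff_map_eq_one]
    intro x
    induction x using QuotientGroup.induction_on with
    | H x =>
      intro hx
      rw [QuotientGroup.map_mk, QuotientGroup.eq_one_iff] at hx
      rw [QuotientGroup.eq_one_iff, Subgroup.mem_subgroupOf]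
      exact hx
  · rintro E F _ _ f hf ⟨hfin, P, hP, hPp, hnil⟩
    have := hfin
    have := hnil
    have hN : (P.map f).Normal := hP.map f hf
    refine ⟨Finite.of_surjective f hf, P.map f, hN, hPp.map f, ?_⟩
    refine Group.nilpotent_of_surjective (QuotientGroup.map P (P.map f) f (Subgroup.le_comap_map f P)) ?_
    intro y
    induction y using QuotientGroup.induction_on with
    | H y =>
      obtain ⟨x, rfl⟩ := hf y
      exact ⟨(x : E ⧸ P), by rw [QuotientGroup.map_mk]⟩

end Pool.Agent.NQ
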